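import Pool.Agent.Helper14.EQ.Q

/-!
# Equality in Mahler's inequality: the limit of `A_s` for `s → 0`
-/

set_option autoImplicit false

noncomputable section

open MeasureTheory Filter Topology Set
open scoped ENNReal InnerProductSpace

namespace Pool.Agent.Helper14.EQLIMA

open Helper82.MAH Helper37.EQ Pool.Agent.Helper14.EQQ

variable {d : ℕ}

theorem main (hN : S_NRM) (hI : S_INT) : Q_LIMA := by
  intro d K
  obtain ⟨-, le11, -, -, -, cone11, -, ⟨c, hc, hcx⟩, -, -⟩ := hN d K 1 1 one_pos one_pos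
  have hcone : ∀ v ∈ K.C, c * ‖v‖ ≤ ⟪K.e, v⟫_ℝ := by
    intro v hv
    have h1 := hcx v
    rw [cone11 v hv, one_mul] at h1
    exact h1
  have hmono : ∀ a b : ℝ, 1 ≤ a → 1 ≤ b → ∀ x, nrm K 1 1 x ≤ nrm K a b x := by
    intro a b ha hb x
    obtain ⟨att, -⟩ := hN d K a b (by linarith) (by linarith)
    obtain ⟨u, hu, v, hv, hx, hval⟩ := att x
    have h1 := le11 x u hu v hv hx
    have h2 : 0 ≤ ⟪K.e, v⟫_ℝ := (by positivity : 0 ≤ c * ‖v‖).trans (hcone v hv)
    have h3 : 0 ≤ ⟪K.e, u⟫_ℝ := (by positivity : 0 ≤ c * ‖u‖).trans (hcone u hu)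
    rw [hval]
    nlinarith
  have hint : Integrable (fun x : E d => Real.exp (-(c * ‖x‖))) := by
    have h1 := hI d c 0 hc
    simpa using h1
  have hmeas : MeasurableSet K.C := K.closed.measurableSet
  -- the slopes
  have hs : ∀ j : ℕ, 0 < 1 / ((j : ℝ) + 2) ∧ 1 / ((j : ℝ) + 2) < 1 := by
    intro j
    have h0 : (0 : ℝ) ≤ j := Nat.cast_nonneg j
    refine ⟨by positivity, ?_⟩
    rw [div_lt_one (by positivity)]
    linarith
  have ha1 : ∀ j : ℕ, 1 ≤ 1 / (1 - 1 / ((j : ℝ) + 2)) := by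
    intro j
    obtain ⟨h1, h2⟩ := hs j
    rw [one_le_div (by linarith)]
    linarith
  have hb : ∀ j : ℕ, 1 / (1 / ((j : ℝ) + 2)) = (j : ℝ) + 2 := fun j => one_div_one_div _
  have hb1 : ∀ j : ℕ, 1 ≤ (j : ℝ) + 2 := fun j => by
    have h0 : (0 : ℝ) ≤ j := Nat.cast_nonneg j
    linarith
  have hlim0 : Tendsto (fun j : ℕ => 1 / ((j : ℝ) + 2)) atTop (𝓝 0) := by
    have h1 : Tendsto (fun j : ℕ => (j : ℝ) + 2) atTop atTop :=
      tendsto_natCast_atTop_atTop.atTop_add tendsto_const_nhds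
    exact tendsto_const_nhds.div_atTop h1
  have hlima : Tendsto (fun j : ℕ => 1 / (1 - 1 / ((j : ℝ) + 2))) atTop (𝓝 1) := by
    have h1 : Tendsto (fun j : ℕ => 1 - 1 / ((j : ℝ) + 2)) atTop (𝓝 (1 - 0)) :=
      tendsto_const_nhds.sub hlim0
    have h2 : Tendsto (fun j : ℕ => (1 - 1 / ((j : ℝ) + 2))⁻¹) atTop (𝓝 (1 - 0)⁻¹) :=
      h1.inv₀ (by norm_num)
    simpa using h2
  have hA : (fun j : ℕ => A K (1 / ((j : ℝ) + 2))) =
      fun j : ℕ => ∫ x, Real.exp (-nrm K (1 / (1 - 1 / ((j : ℝ) + 2))) ((j : ℝ) + 2) x) := by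
    funext j
    unfold A
    rw [hb]
  rw [hA, ← integral_indicator hmeas]
  refine tendsto_integral_filter_of_dominated_convergence (fun x : E d => Real.exp (-(c * ‖x‖)))
    ?_ ?_ hint ?_
  · refine Eventually.of_forall fun j => ?_
    obtain ⟨-, -, -, -, -, -, -, -, -, ⟨c', hc', hl⟩⟩ :=
      hN d K (1 / (1 - 1 / ((j : ℝ) + 2))) ((j : ℝ) + 2) (by linarith [ha1 j]) (by linarith [hb1 j])
    have hcont := Pool.Agent.Helper14.MAHEB.cont_of_lip hc' hl
    exact (Real.continuous_exp.comp hcont.neg).aestronglyMeasurable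
  · refine Eventually.of_forall fun j => Eventually.of_forall fun x => ?_
    rw [Real.norm_of_nonneg (Real.exp_pos _).le]
    refine Real.exp_le_exp.2 (neg_le_neg ?_)
    exact (hcx x).trans (hmono _ _ (ha1 j) (hb1 j) x)
  · refine Eventually.of_forall fun x => ?_
    by_cases hx : x ∈ K.C
    · rw [indicator_of_mem hx]
      have h1 : ∀ j : ℕ, nrm K (1 / (1 - 1 / ((j : ℝ) + 2))) ((j : ℝ) + 2) x =
          1 / (1 - 1 / ((j : ℝ) + 2)) * ⟪K.e, x⟫_ℝ := by
        intro j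
        obtain ⟨-, -, -, -, -, h6, -⟩ := hN d K (1 / (1 - 1 / ((j : ℝ) + 2))) ((j : ℝ) + 2)
          (by linarith [ha1 j]) (by linarith [hb1 j])
        exact h6 x hx
      simp_rw [h1]
      have h2 := hlima.mul_const ⟪K.e, x⟫_ℝ
      rw [one_mul] at h2
      exact (Real.continuous_exp.tendsto _).comp h2.neg
    · rw [indicator_of_notMem hx]
      obtain ⟨δ, hδ, hball⟩ := Metric.isOpen_iff.1 K.closed.isOpen_compl x hx
      have hlow : ∀ j : ℕ, ((j : ℝ) + 2) * (c * δ) ≤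
          nrm K (1 / (1 - 1 / ((j : ℝ) + 2))) ((j : ℝ) + 2) x := by
        intro j
        obtain ⟨att, -⟩ := hN d K (1 / (1 - 1 / ((j : ℝ) + 2))) ((j : ℝ) + 2)
          (by linarith [ha1 j]) (by linarith [hb1 j])
        obtain ⟨u, hu, v, hv, hxu, hval⟩ := att x
        have h1 : δ ≤ ‖v‖ := by
          by_contra hlt
          push Not at hlt
          refine hball ?_ hu
          rw [Metric.mem_ball, dist_eq_norm, hxu]
          simpa using hlt
        have h2 : c * δ ≤ ⟪K.e, v⟫_ℝ :=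
          (mul_le_mul_of_nonneg_left h1 hc.le).trans (hcone v hv)
        have h3 : 0 ≤ ⟪K.e, u⟫_ℝ := (by positivity : 0 ≤ c * ‖u‖).trans (hcone u hu)
        rw [hval]
        have h4 := mul_le_mul_of_nonneg_left h2 (by linarith [hb1 j] : (0 : ℝ) ≤ (j : ℝ) + 2)
        have h5 := mul_nonneg (by linarith [ha1 j] : (0 : ℝ) ≤ 1 / (1 - 1 / ((j : ℝ) + 2))) h3
        linarith
      have hcδ : 0 < c * δ := by positivity
      have hatT : Tendsto (fun j : ℕ => nrm K (1 / (1 - 1 / ((j : ℝ) + 2))) ((j : ℝ) + 2) x)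
          atTop atTop := by
        have h1 : Tendsto (fun j : ℕ => ((j : ℝ) + 2) * (c * δ)) atTop atTop :=
          (tendsto_natCast_atTop_atTop.atTop_add tendsto_const_nhds).atTop_mul_const hcδ
        exact tendsto_atTop_mono hlow h1
      exact Real.tendsto_exp_neg_atTop_nhds_zero.comp hatT

end Pool.Agent.Helper14.EQLIMA
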